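import Mathlib
import Pool.Agent.X200.QpNonhom
import Pool.Agent.X200.QpWhy

/-!
MP_76989b_gt: Q1 has a negative answer and Q2 has a positive answer (both in ZFC).
-/

set_option autoImplicit false

universe v

namespace Pool.Agent.Results.MP_76989b_gt.BothQuestions

open Set Topology Filter

/-- Quasicontinuous functions. -/
def QC {X : Type*} [TopologicalSpace X] (f : X → ℝ) : Prop :=
  ∀ (x : X) (U : Set X), IsOpen U → x ∈ U → ∀ V : Set ℝ, IsOpen V → f x ∈ V →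
    ∃ W : Set X, IsOpen W ∧ W.Nonempty ∧ W ⊆ U ∧ f '' W ⊆ V

/-- `Q_p(X, ℝ)`: the quasicontinuous functions with the topology of pointwise convergence. -/
def Qp (X : Type*) [TopologicalSpace X] : Type _ := {f : X → ℝ // QC f}

instance (X : Type*) [TopologicalSpace X] : TopologicalSpace (Qp X) :=
  inferInstanceAs (TopologicalSpace {f : X → ℝ // QC f})

/-- `Y` is Fréchet-Urysohn at `y`. -/
def FUat {Y : Type*} [TopologicalSpace Y] (y : Y) : Prop :=
  ∀ A : Set Y, y ∈ closure A → ∃ s : ℕ → Y, (∀ n, s n ∈ A) ∧ Tendsto s atTop (𝓝 y)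

/-- Minimally bounded sets. -/
def MB {X : Type*} [TopologicalSpace X] (A : Set X) : Prop :=
  A ⊆ closure (interior A) ∧ interior (closure A) ⊆ A

/-- Membership in `Ω^s`: an `ω`-cover all of whose members are minimally bounded. -/
def OmegaS {X : Type*} [TopologicalSpace X] (𝒰 : Set (Set X)) : Prop :=
  (∀ U ∈ 𝒰, MB U) ∧ ∀ F : Set X, F.Finite → ∃ U ∈ 𝒰, F ⊆ U

/-- Membership in `Γ^s`: a `γ`-cover all of whose members are minimally bounded. -/
def GammaS {X : Type*} [TopologicalSpace X] (𝒰 : Set (Set X)) : Prop :=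
  (∀ U ∈ 𝒰, MB U) ∧ ⋃₀ 𝒰 = univ ∧ ∀ x : X, {U ∈ 𝒰 | x ∉ U}.Finite

/-- The selection principle `S_1(Ω^s, Γ^s)`. -/
def S1 (X : Type*) [TopologicalSpace X] : Prop :=
  ∀ 𝒰 : ℕ → Set (Set X), (∀ n, OmegaS (𝒰 n)) →
    ∃ U : ℕ → Set X, (∀ n, U n ∈ 𝒰 n) ∧ GammaS (range U)

/-- Open Whyburn spaces. -/
def OpenWhyburn (X : Type*) [TopologicalSpace X] : Prop :=
  ∀ A : Set X, IsOpen A → ∀ x ∈ closure A \ A, ∃ B : Set X, IsOpen B ∧ B ⊆ A ∧ closure B \ A = {x}

theorem result :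
    -- Q1: no
    (∃ (X : Type) (_ : TopologicalSpace X), T2Space X ∧ S1 X ∧
      (∀ z : Qp X, (∀ x, z.1 x = 0) → FUat z) ∧ ∃ f : Qp X, ¬ FUat f) ∧
    -- Q2: yes
    (∀ (X : Type v) [TopologicalSpace X] [T2Space X], OpenWhyburn X → S1 X →
      ∀ f : Qp X, FUat f) :=
  ⟨Pool.Agent.X200.QpNonhom.main, fun _ _ _ hW hS f => Pool.Agent.X200.QpWhy.main hW hS f⟩

end Pool.Agent.Results.MP_76989b_gt.BothQuestions
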